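import Mathlib

/-!
# Commutation classes of the powers of a bipartite Coxeter element, and walks

Permutations of `{1, …, n}` are permutations of `ℕ` which fix everything else.
The elements of `D_{n,p}` correspond to the walks `x_1, …, x_{n-1}` on the path `0, …, 2p+1` with
`x_i ≡ i + 1` modulo 2: `x_i` is `2 c` (`i` odd) or `2 c + 1` (`i` even) where `c` is the number of
letters `i` used.  The two values swapped by the letter `i` of the block number `T + 1` are
swapped in the permutation if and only if `x_i > T`.
-/

set_option autoImplicit false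

open Set

namespace Pool.Agent.Q288.Condorcet

/-- The transposition of `i` and `i + 1`. -/
def s (i : ℕ) : Equiv.Perm ℕ := Equiv.swap i (i + 1)

/-- The product `s_{j_1} ⋯ s_{j_m}` of the word `j_1, …, j_m`. -/
def prod (w : List ℕ) : Equiv.Perm ℕ := (w.map s).prod

/-- A commutation move: swapping two adjacent letters which differ by at least two. -/
inductive Move : List ℕ → List ℕ → Prop
  | mk (u v : List ℕ) (a b : ℕ) (h : a + 2 ≤ b ∨ b + 2 ≤ a) :
      Move (u ++ a :: b :: v) (u ++ b :: a :: v)

/-- The commutation class of a word. -/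
def commClass (w : List ℕ) : Set (List ℕ) := {v | Relation.ReflTransGen Move w v}

/-- The products of the initial segments of the words in `C`. -/
def Pre (C : Set (List ℕ)) : Set (Equiv.Perm ℕ) := {x | ∃ w ∈ C, ∃ v, v <+: w ∧ x = prod v}

/-- The block number `t + 1`: the odd letters `i ≤ n - 1` if `t` is even, and the even letters
`2 ≤ i ≤ n - 1` if `t` is odd. -/
def block (n t : ℕ) : List ℕ := (List.range n).filter fun i => 0 < i ∧ (i + t) % 2 = 1

/-- The first `m` blocks. -/
def blocks (n m : ℕ) : List ℕ := ((List.range m).map (block n)).flatten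

/-- The domain `D_{n,p}`. -/
def D (n p : ℕ) : Set (Equiv.Perm ℕ) := Pre (commClass (blocks n (2 * p)))

/-- The linear order `<_x`. -/
def Before (x : Equiv.Perm ℕ) (a b : ℕ) : Prop := x⁻¹ a < x⁻¹ b

/-- The majority relation of the set `D` of permutations. -/
def Majority (D : Set (Equiv.Perm ℕ)) (a b : ℕ) : Prop :=
  {x ∈ D | Before x b a}.ncard < {x ∈ D | Before x a b}.ncard

/-! ### Words and heights -/

/-- The height of the column `i`. -/
def ht (v : List ℕ) (i : ℕ) : ℕ := 2 * v.count i + (i + 1) % 2

/-- The heights form a walk on the path `0, …, 2p+1`. -/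
structure Valid (n p : ℕ) (x : ℕ → ℕ) : Prop where
  adj : ∀ i, 1 ≤ i → i + 2 ≤ n → x (i + 1) = x i + 1 ∨ x i = x (i + 1) + 1
  le : ∀ i, 1 ≤ i → i + 1 ≤ n → x i ≤ 2 * p + 1

/-- All letters are in range, and all initial segments have valid heights. -/
structure Good (n p : ℕ) (w : List ℕ) : Prop where
  letter : ∀ i ∈ w, 1 ≤ i ∧ i + 1 ≤ n
  valid : ∀ v, v <+: w → Valid n p (ht v)

variable {n p : ℕ}

theorem Good.of_prefix' {v w : List ℕ} (h : Good n p w) (hv : v <+: w) : Good n p v :=
  ⟨fun i hi => h.letter i (hv.subset hi), fun u hu => h.valid u (hu.trans hv)⟩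

theorem ht_append (u v : List ℕ) (i : ℕ) : ht (u ++ v) i = ht u i + 2 * v.count i := by
  unfold ht
  rw [List.count_append]
  ring

theorem ht_snoc (v : List ℕ) (a i : ℕ) : ht (v ++ [a]) i = ht v i + if a = i then 2 else 0 := by
  rw [ht_append, List.count_singleton]
  by_cases h : a = i
  · subst h; simp
  · simp [h]

theorem ht_parity (v : List ℕ) (i : ℕ) : ht v i % 2 = (i + 1) % 2 := by
  unfold ht
  omega

theorem Good.snoc {w : List ℕ} {a : ℕ} (h : Good n p w) (ha : 1 ≤ a ∧ a + 1 ≤ n)
    (hv : Valid n p (ht (w ++ [a]))) : Good n p (w ++ [a]) := by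
  refine ⟨?_, ?_⟩
  · intro i hi
    rw [List.mem_append, List.mem_singleton] at hi
    rcases hi with hi | rfl
    · exact h.letter i hi
    · exact ha
  · intro v hv'
    rw [List.prefix_concat_iff] at hv'
    rcases hv' with rfl | hv'
    · exact hv
    · exact h.valid v hv'

theorem Good.move {w w' : List ℕ} (h : Good n p w) (hm : Move w w') : Good n p w' := by
  cases hm with
  | mk u v a b hab =>
    have hperm : ∀ r : List ℕ, ∀ i, ht (u ++ b :: a :: r) i = ht (u ++ a :: b :: r) i := by
      intro r i
      rw [ht_append, ht_append]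
      congr 2
      exact (List.Perm.swap a b r).count_eq i
    refine ⟨?_, ?_⟩
    · intro i hi
      apply h.letter i
      simp only [List.mem_append, List.mem_cons] at hi ⊢
      tauto
    · intro r hr
      rcases List.prefix_or_prefix_of_prefix hr (List.prefix_append u (b :: a :: v)) with h1 | h1
      · exact h.valid r (h1.trans (List.prefix_append _ _))
      · obtain ⟨t, rfl⟩ := h1
        rw [List.prefix_append_right_inj, List.prefix_cons_iff] at hr
        have h0 := h.valid u (List.prefix_append _ _)
        rcases hr with rfl | ⟨t, rfl, ht'⟩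
        · rwa [List.append_nil]
        · rw [List.prefix_cons_iff] at ht'
          rcases ht' with rfl | ⟨t, rfl, ht'⟩
          · have h1 := h.valid (u ++ [a]) (by
              rw [List.prefix_append_right_inj]
              exact ⟨b :: v, rfl⟩)
            have h2 := h.valid (u ++ [a, b]) (by
              rw [List.prefix_append_right_inj]
              exact ⟨v, rfl⟩)
            have e1 : ∀ i, ht (u ++ [a]) i = ht u i + if a = i then 2 else 0 := ht_snoc u a
            have e2 : ∀ i, ht (u ++ [b]) i = ht u i + if b = i then 2 else 0 := ht_snoc u b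
            have e3 : ∀ i, ht (u ++ [a, b]) i = ht u i + (if a = i then 2 else 0) +
                if b = i then 2 else 0 := by
              intro i
              rw [show u ++ [a, b] = (u ++ [a]) ++ [b] by simp, ht_snoc, ht_snoc]
            constructor
            · intro i hi hi'
              have k0 := h0.adj i hi hi'
              have k1 := h1.adj i hi hi'
              have k2 := h2.adj i hi hi'
              rw [e1, e1] at k1
              rw [e3, e3] at k2
              rw [e2, e2]
              split_ifs at * <;> omega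
            · intro i hi hi'
              have k0 := h0.le i hi hi'
              have k2 := h2.le i hi hi'
              rw [e3] at k2
              rw [e2]
              split_ifs at * <;> omega
          · have h1 := h.valid (u ++ a :: b :: t) (by
              rw [List.prefix_append_right_inj]
              obtain ⟨t', rfl⟩ := ht'
              exact ⟨t', rfl⟩)
            have e := hperm t
            constructor
            · intro i hi hi'
              rw [e, e]
              exact h1.adj i hi hi'
            · intro i hi hi'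
              rw [e]
              exact h1.le i hi hi'

theorem Good.reach {w w' : List ℕ} (h : Good n p w) (hm : Relation.ReflTransGen Move w w') :
    Good n p w' := by
  induction hm with
  | refl => exact h
  | tail _ hm ih => exact ih.move hm

/-- The heights after `t` blocks. -/
def H (t i : ℕ) : ℕ := if (i + t) % 2 = 1 then t else t + 1

theorem valid_mix {t m : ℕ} (ht' : t < 2 * p) :
    Valid n p (fun i => if i < m then H (t + 1) i else H t i) := by
  constructor
  · intro i hi hi'
    simp only [H]
    split_ifs <;> omega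
  · intro i hi hi'
    simp only [H]
    split_ifs <;> omega

theorem Valid.congr {x y : ℕ → ℕ} (h : Valid n p x) (hxy : ∀ i, 1 ≤ i → i + 1 ≤ n → y i = x i) :
    Valid n p y := by
  constructor
  · intro i hi hi'
    rw [hxy i hi (by omega), hxy (i + 1) (by omega) (by omega)]
    exact h.adj i hi hi'
  · intro i hi hi'
    rw [hxy i hi hi']
    exact h.le i hi hi'

theorem good_partial {t m : ℕ} (ht' : t < 2 * p) (hm : m ≤ n) (hg : Good n p (blocks n t))
    (hh : ∀ i, 1 ≤ i → i + 1 ≤ n → ht (blocks n t) i = H t i) :
    Good n p (blocks n t ++ (List.range m).filter fun i => 0 < i ∧ (i + t) % 2 = 1) ∧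
    ∀ i, 1 ≤ i → i + 1 ≤ n →
      ht (blocks n t ++ (List.range m).filter fun i => 0 < i ∧ (i + t) % 2 = 1) i =
        if i < m then H (t + 1) i else H t i := by
  induction m with
  | zero => simpa using ⟨hg, hh⟩
  | succ m ih =>
    obtain ⟨h1, h2⟩ := ih (by omega)
    rw [List.range_succ, List.filter_append]
    by_cases hP : 0 < m ∧ (m + t) % 2 = 1
    · have e : [m].filter (fun i => decide (0 < i ∧ (i + t) % 2 = 1)) = [m] := by
        simp [hP]
      rw [e, ← List.append_assoc]
      have h3 : ∀ i, 1 ≤ i → i + 1 ≤ n →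
          ht (blocks n t ++ List.filter (fun i => decide (0 < i ∧ (i + t) % 2 = 1))
            (List.range m) ++ [m]) i = if i < m + 1 then H (t + 1) i else H t i := by
        intro i hi hi'
        rw [ht_snoc, h2 i hi hi']
        simp only [H]
        split_ifs <;> omega
      exact ⟨h1.snoc ⟨hP.1, hm⟩ ((valid_mix ht').congr h3), h3⟩
    · have e : [m].filter (fun i => decide (0 < i ∧ (i + t) % 2 = 1)) = [] := by
        rw [List.filter_cons_of_neg (by simpa using hP), List.filter_nil]
      rw [e, List.append_nil]
      refine ⟨h1, fun i hi hi' => ?_⟩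
      rw [h2 i hi hi']
      simp only [H]
      split_ifs <;> omega

theorem blocks_succ (n t : ℕ) : blocks n (t + 1) = blocks n t ++ block n t := by
  simp [blocks, List.range_succ]

theorem good_blocks {t : ℕ} (ht' : t ≤ 2 * p) :
    Good n p (blocks n t) ∧ ∀ i, 1 ≤ i → i + 1 ≤ n → ht (blocks n t) i = H t i := by
  induction t with
  | zero =>
    have h0 : blocks n 0 = [] := rfl
    have h1 : ∀ i, ht [] i = H 0 i := by
      intro i
      simp only [ht, H, List.count_nil]
      split_ifs <;> omega
    rw [h0]
    refine ⟨⟨fun i hi => absurd hi (by simp), fun v hv => ?_⟩, fun i _ _ => h1 i⟩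
    rw [List.prefix_nil] at hv
    subst hv
    constructor
    · intro i _ _
      rw [h1, h1]
      simp only [H]
      split_ifs <;> omega
    · intro i _ _
      rw [h1]
      simp only [H]
      split_ifs <;> omega
  | succ t ih =>
    obtain ⟨h1, h2⟩ := ih (by omega)
    obtain ⟨h3, h4⟩ := good_partial (m := n) (by omega) le_rfl h1 h2
    rw [blocks_succ]
    refine ⟨h3, fun i hi hi' => ?_⟩
    rw [block, h4 i hi hi', if_pos (by omega)]

/-! ### The permutation of a good word -/

/-- The value at the position `j` after `t` blocks. -/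
def V (n j t : ℕ) : ℕ :=
  if (j + t) % 2 = 1 then (if t < j then j - t else t + 1 - j)
  else (if j + t ≤ n then j + t else 2 * n + 1 - j - t)

/-- The local time at the position `j`. -/
def tau (n : ℕ) (x : ℕ → ℕ) (j : ℕ) : ℕ :=
  if j = 1 then x 1 else if j = n then x (n - 1) else max (x (j - 1)) (x j) - 1

/-- The smaller one of the values swapped in the column `i` by the block number `T + 1`. -/
def lo (i T : ℕ) : ℕ := if T < i then i - T else T + 1 - i

/-- The larger one of the values swapped in the column `i` by the block number `T + 1`. -/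
def hi (n i T : ℕ) : ℕ := if i + T < n then i + T + 1 else 2 * n - i - T

theorem prod_snoc (v : List ℕ) (a : ℕ) : prod (v ++ [a]) = prod v * s a := by
  simp [prod]

theorem prod_apply_snoc (v : List ℕ) (a j : ℕ) :
    prod (v ++ [a]) j = if j = a then prod v (a + 1) else if j = a + 1 then prod v a
      else prod v j := by
  rw [prod_snoc, Equiv.Perm.mul_apply, s]
  split_ifs with h1 h2
  · rw [h1, Equiv.swap_apply_left]
  · rw [h2, Equiv.swap_apply_right]
  · rw [Equiv.swap_apply_of_ne_of_ne h1 h2]

theorem prod_outside {v : List ℕ} (h : ∀ i ∈ v, 1 ≤ i ∧ i + 1 ≤ n) {j : ℕ} (hj : j < 1 ∨ n < j) :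
    prod v j = j := by
  induction v using List.reverseRecOn with
  | nil => rfl
  | append_singleton v a ih =>
    have ha := h a (by simp)
    rw [prod_apply_snoc, if_neg (by omega), if_neg (by omega)]
    exact ih (fun i hi => h i (by simp [hi]))

theorem column_facts {v : List ℕ} {a : ℕ} (h : Good n p (v ++ [a])) :
    (1 ≤ a ∧ a + 1 ≤ n) ∧ (2 ≤ a → ht v (a - 1) = ht v a + 1) ∧
      (a + 2 ≤ n → ht v (a + 1) = ht v a + 1) ∧ ht v a + 2 ≤ 2 * p + 1 := by
  have hv : Good n p v := h.of_prefix' (List.prefix_append _ _)
  have ha := h.letter a (by simp)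
  have hx := hv.valid v List.prefix_rfl
  have hx' := h.valid (v ++ [a]) List.prefix_rfl
  have e : ∀ i, ht (v ++ [a]) i = ht v i + if a = i then 2 else 0 := ht_snoc v a
  refine ⟨ha, ?_, ?_, ?_⟩
  · intro h2
    have h3 := hx.adj (a - 1) (by omega) (by omega)
    have h4 := hx'.adj (a - 1) (by omega) (by omega)
    rw [e, e] at h4
    rw [show a - 1 + 1 = a by omega] at h3 h4
    rw [if_pos rfl, if_neg (by omega)] at h4
    omega
  · intro h2
    have h3 := hx.adj a ha.1 (by omega)
    have h4 := hx'.adj a ha.1 (by omega)
    rw [e, e] at h4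
    rw [if_pos rfl, if_neg (by omega)] at h4
    omega
  · have k3 := hx'.le a ha.1 ha.2
    rwa [e, if_pos rfl] at k3

theorem tau_facts {v : List ℕ} {a : ℕ} (h : Good n p (v ++ [a])) :
    tau n (ht v) (a + 1) = ht v a ∧ tau n (ht v) a = ht v a := by
  obtain ⟨ha, k1, k2, -⟩ := column_facts h
  constructor
  · unfold tau
    rw [if_neg (by omega)]
    split_ifs with h1
    · rw [show n - 1 = a by omega]
    · rw [Nat.add_sub_cancel, k2 (by omega)]
      omega
  · unfold tau
    split_ifs with h1 h2
    · rw [h1]
    · omega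
    · rw [k1 (by omega)]
      omega

theorem prod_apply (hn : 3 ≤ n) (hp : 2 * p ≤ n) {v : List ℕ} (h : Good n p v) {j : ℕ}
    (hj : 1 ≤ j) (hj' : j ≤ n) : prod v j = V n j (tau n (ht v) j) := by
  induction v using List.reverseRecOn generalizing j with
  | nil =>
    have e : ∀ i, ht [] i = (i + 1) % 2 := fun i => by simp [ht]
    simp only [tau, e, V]
    have : prod [] j = j := rfl
    rw [this]
    split_ifs <;> omega
  | append_singleton v a ih =>
    have hv : Good n p v := h.of_prefix' (List.prefix_append _ _)
    obtain ⟨ha, k1, k2, k3⟩ := column_facts h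
    obtain ⟨t1, t2⟩ := tau_facts h
    have hpar := ht_parity v a
    have e : ∀ i, ht (v ++ [a]) i = ht v i + if a = i then 2 else 0 := ht_snoc v a
    have t3 : tau n (ht (v ++ [a])) (a + 1) = if a + 1 = n then ht v a + 2 else ht v a + 1 := by
      unfold tau
      rw [if_neg (by omega)]
      split_ifs with h1
      · rw [show n - 1 = a by omega, e, if_pos rfl]
      · rw [Nat.add_sub_cancel, e, e, if_pos rfl, if_neg (by omega), k2 (by omega)]
        omega
    have t4 : tau n (ht (v ++ [a])) a = if a = 1 then ht v a + 2 else ht v a + 1 := by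
      unfold tau
      split_ifs with h1 h2
      · subst h1
        rw [e, if_pos rfl]
      · omega
      · rw [e, e, if_neg (by omega), if_pos rfl, k1 (by omega)]
        omega
    rw [prod_apply_snoc]
    split_ifs with h1 h2
    · subst h1
      rw [ih hv (by omega) (by omega), t1, t4]
      simp only [V]
      split_ifs <;> omega
    · subst h2
      rw [ih hv (by omega) (by omega), t2, t3]
      simp only [V]
      split_ifs <;> omega
    · rw [ih hv hj hj']
      congr 1
      unfold tau
      split_ifs with h3 h4
      · rw [e, if_neg (by omega), add_zero]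
      · rw [e, if_neg (by omega), add_zero]
      · rw [e, e, if_neg (by omega), if_neg (by omega), add_zero, add_zero]

/-- The values at the two positions which are swapped by the next letter. -/
theorem prod_apply_column (hn : 3 ≤ n) (hp : 2 * p ≤ n) {v : List ℕ} {a : ℕ}
    (h : Good n p (v ++ [a])) : prod v a = lo a (ht v a) ∧ prod v (a + 1) = hi n a (ht v a) := by
  have hv : Good n p v := h.of_prefix' (List.prefix_append _ _)
  obtain ⟨ha, k1, k2, k3⟩ := column_facts h
  obtain ⟨t1, t2⟩ := tau_facts h
  have hpar := ht_parity v a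
  rw [prod_apply hn hp hv (by omega) (by omega), prod_apply hn hp hv (by omega) (by omega), t1, t2]
  simp only [V, lo, hi]
  constructor <;> split_ifs <;> omega

theorem lo_lt_hi {i T : ℕ} (hi' : 1 ≤ i) (hin : i + 1 ≤ n) (hT : T < n) (hpar : (i + T) % 2 = 1) :
    1 ≤ lo i T ∧ lo i T < hi n i T ∧ hi n i T ≤ n := by
  simp only [lo, hi]
  split_ifs <;> omega

theorem pair_inj {i T j U : ℕ} (hi1 : 1 ≤ i) (hin : i + 1 ≤ n) (hT : T < n)
    (hpar : (i + T) % 2 = 1) (hj1 : 1 ≤ j) (hjn : j + 1 ≤ n) (hU : U < n)
    (hpar' : (j + U) % 2 = 1) (h1 : lo i T = lo j U) (h2 : hi n i T = hi n j U) :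
    i = j ∧ T = U := by
  simp only [lo, hi] at h1 h2
  split_ifs at h1 h2 <;> omega

theorem exists_pair {a b : ℕ} (ha : 1 ≤ a) (hab : a < b) (hb : b ≤ n) :
    ∃ i T, 1 ≤ i ∧ i + 1 ≤ n ∧ T < n ∧ (i + T) % 2 = 1 ∧ lo i T = a ∧ hi n i T = b := by
  rcases Nat.mod_two_eq_zero_or_one a with h1 | h1 <;>
    rcases Nat.mod_two_eq_zero_or_one b with h2 | h2
  · refine ⟨(b - a) / 2, (a + b - 2) / 2, ?_, ?_, ?_, ?_, ?_, ?_⟩ <;>
      (try simp only [lo, hi]) <;> (try split_ifs) <;> omega
  · refine ⟨(2 * n + 1 - b - a) / 2, (2 * n - b + a - 1) / 2, ?_, ?_, ?_, ?_, ?_, ?_⟩ <;>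
      (try simp only [lo, hi]) <;> (try split_ifs) <;> omega
  · refine ⟨(a + b - 1) / 2, (b - 1 - a) / 2, ?_, ?_, ?_, ?_, ?_, ?_⟩ <;>
      (try simp only [lo, hi]) <;> (try split_ifs) <;> omega
  · refine ⟨(2 * n - b + a) / 2, (2 * n - b - a) / 2, ?_, ?_, ?_, ?_, ?_, ?_⟩ <;>
      (try simp only [lo, hi]) <;> (try split_ifs) <;> omega

/-- The two values of the pair `(i, T)` are in reversed order if and only if the height of the
column `i` is greater than `T`. -/
theorem before_iff (hn : 3 ≤ n) (hp : 2 * p ≤ n) {v : List ℕ} (h : Good n p v) {i T : ℕ}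
    (hi1 : 1 ≤ i) (hin : i + 1 ≤ n) (hT : T < n) (hpar : (i + T) % 2 = 1) :
    Before (prod v) (hi n i T) (lo i T) ↔ T < ht v i := by
  induction v using List.reverseRecOn with
  | nil =>
    have e : ht [] i = (i + 1) % 2 := by simp [ht]
    have h1 : prod [] = 1 := rfl
    have h2 := lo_lt_hi hi1 hin hT hpar
    rw [h1, e]
    simp only [Before, inv_one, Equiv.Perm.one_apply]
    omega
  | append_singleton v a ih =>
    have hv : Good n p v := h.of_prefix' (List.prefix_append _ _)
    obtain ⟨ha, k1, k2, k3⟩ := column_facts h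
    obtain ⟨c1, c2⟩ := prod_apply_column hn hp h
    have hpar' := ht_parity v a
    have hvi := ht_parity v i
    have d1 : (prod v)⁻¹ (lo a (ht v a)) = a := by
      rw [Equiv.Perm.inv_eq_iff_eq, c1]
    have d2 : (prod v)⁻¹ (hi n a (ht v a)) = a + 1 := by
      rw [Equiv.Perm.inv_eq_iff_eq, c2]
    have hinv : ∀ z, (prod (v ++ [a]))⁻¹ z = s a ((prod v)⁻¹ z) := by
      intro z
      rw [prod_snoc, mul_inv_rev, Equiv.Perm.mul_apply]
      congr 1
    rw [ht_snoc]
    unfold Before at ih ⊢
    rw [hinv, hinv]
    by_cases heq : i = a ∧ T = ht v a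
    · obtain ⟨rfl, rfl⟩ := heq
      rw [d1, d2, s, Equiv.swap_apply_left, Equiv.swap_apply_right, if_pos rfl]
      omega
    · have hne : ¬ ((prod v)⁻¹ (lo i T) = a ∧ (prod v)⁻¹ (hi n i T) = a + 1) := by
        rintro ⟨h1, h2⟩
        apply heq
        rw [← d1] at h1
        rw [← d2] at h2
        exact pair_inj hi1 hin hT hpar ha.1 ha.2 (by omega) (by omega)
          ((prod v)⁻¹.injective h1) ((prod v)⁻¹.injective h2)
      have hne' : ¬ ((prod v)⁻¹ (hi n i T) = a ∧ (prod v)⁻¹ (lo i T) = a + 1) := by
        rintro ⟨h1, h2⟩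
        rw [← d1] at h1
        rw [← d2] at h2
        have h3 := (prod v)⁻¹.injective h1
        have h4 := (prod v)⁻¹.injective h2
        have h5 := lo_lt_hi hi1 hin hT hpar
        have h6 := lo_lt_hi ha.1 ha.2 (T := ht v a) (by omega) (by omega)
        omega
      have hih := ih hv
      have hdist : (prod v)⁻¹ (hi n i T) ≠ (prod v)⁻¹ (lo i T) := by
        intro h1
        have h2 := (prod v)⁻¹.injective h1
        have h5 := lo_lt_hi hi1 hin hT hpar
        omega
      have hT' : T < ht v i + (if a = i then 2 else 0) ↔ T < ht v i := by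
        split_ifs with h1
        · subst h1
          omega
        · simp
      rw [hT', ← hih]
      generalize (prod v)⁻¹ (hi n i T) = x at *
      generalize (prod v)⁻¹ (lo i T) = y at *
      unfold s
      rw [Equiv.swap_apply_def, Equiv.swap_apply_def]
      split_ifs <;> omega

end Pool.Agent.Q288.Condorcet
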